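import Pool.Agent.Lib.MP_b5ab38_an.MainNeg
import Pool.Agent.Lib.MP_b5ab38_an.Family

set_option autoImplicit false

/-!
# Complete answer to Q1 of MP_b5ab38_an

For norms and for continuous bumps the answer is negative. The problem file does not ask a bump to
be continuous, and without continuity there is a bump all of whose Gateaux derivatives exist.
-/

namespace Pool.Agent.Results.MP_b5ab38_an.FullAnswer

open Pool.Agent.Lib.MP_b5ab38_an

/-- `ℓ_3` has no equivalent norm that is four times Gateaux differentiable at every nonzero point,
no continuous bump that is four times Gateaux differentiable at every point, and it has a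
(necessarily discontinuous) bump that is `k` times Gateaux differentiable at every point for
every `k`. -/
theorem result : NoGateauxSmoothNormOrBump (lp (fun _ : ℕ => ℝ) 3) 4 ∧
    HasInfinitelyGateauxBump (lp (fun _ : ℕ => ℝ) 3) :=
  ⟨⟨no_norm, no_bump⟩, exists_wild_bump _⟩

end Pool.Agent.Results.MP_b5ab38_an.FullAnswer
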